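import Pool.Agent.Lib.helper10.Crossed

namespace Pool.Agent.H.MP_503320_al

open Pool.Agent.Lib.helper10.Crossed

section
variable {D : Type} [Ring D] {σ : D →+* D}

theorem co_lt (f : CP (sp σ)) {i j : ℕ} (h : i < j) (s : D) : toF (f * sg (sp σ) j s) i = 0 := by
  by_contra hc
  obtain ⟨a, b, -, h2, h3⟩ := supp_mul hc
  rw [toF_sg, Finsupp.single_eq_of_ne (by omega)] at h2
  exact h2 rfl

theorem c0_mul (f g : CP (sp σ)) : toF (f * g) 0 = toF f 0 * toF g 0 := by
  induction g using ind with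
  | h0 => simp [toF_zero]
  | ha g g' a1 a2 => simp only [mul_add, toF_add, Finsupp.add_apply, a1, a2]
  | hs j s =>
    rcases j with _ | j
    · rw [toF_sg, Finsupp.single_eq_same]; exact co_mul_sg f 0 0 s
    · rw [co_lt f (by omega), toF_sg, Finsupp.single_eq_of_ne (by omega), mul_zero]

theorem c1_mul (f g : CP (sp σ)) :
    toF (f * g) 1 = σ (toF f 0) * toF g 1 + toF f 1 * toF g 0 := by
  induction g using ind with
  | h0 => simp [toF_zero]
  | ha g g' a1 a2 =>
    simp only [mul_add, toF_add, Finsupp.add_apply, a1, a2]; abel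
  | hs j s =>
    rcases j with _ | _ | j
    · rw [toF_sg, Finsupp.single_eq_same, Finsupp.single_eq_of_ne (by omega), mul_zero, zero_add]
      exact co_mul_sg f 1 0 s
    · rw [toF_sg, zero_add, Finsupp.single_eq_same, Finsupp.single_eq_of_ne (by omega), mul_zero,
        add_zero]
      simpa using co_mul_sg f 0 1 s
    · rw [co_lt f (by omega), toF_sg, Finsupp.single_eq_of_ne (by omega),
        Finsupp.single_eq_of_ne (by omega), mul_zero, mul_zero, add_zero]

noncomputable def X (σ : D →+* D) : CP (sp σ) := sg _ 1 1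

theorem X_mul (i : ℕ) (s : D) : X σ * sg _ i s = sg _ (i + 1) s := by
  rw [X, sp_mul, add_comm, map_one, one_mul]

theorem mul_X (i : ℕ) (s : D) : sg _ i s * X σ = X σ * sg _ i (σ s) := by
  rw [X_mul, X, sp_mul, pow_one, mul_one]

theorem normal (r : CP (sp σ)) : ∃ r', r * X σ = X σ * r' := by
  induction r using ind with
  | h0 => exact ⟨0, by simp⟩
  | ha f g a1 a2 =>
    obtain ⟨f', h1⟩ := a1
    obtain ⟨g', h2⟩ := a2
    exact ⟨f' + g', by rw [add_mul, mul_add, h1, h2]⟩
  | hs i s => exact ⟨_, mul_X i s⟩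

theorem decomp (f : CP (sp σ)) : ∃ r, f = cst _ (toF f 0) + X σ * r := by
  induction f using ind with
  | h0 => exact ⟨0, by simp [toF_zero]⟩
  | ha f g a1 a2 =>
    obtain ⟨f', h1⟩ := a1
    obtain ⟨g', h2⟩ := a2
    refine ⟨f' + g', ?_⟩
    rw [toF_add, Finsupp.add_apply, map_add, mul_add]
    conv_lhs => rw [h1, h2]
    abel
  | hs i s =>
    rcases i with _ | i
    · exact ⟨0, by rw [toF_sg, Finsupp.single_eq_same, mul_zero, add_zero]; rfl⟩
    · exact ⟨sg _ i s, by
        rw [toF_sg, Finsupp.single_eq_of_ne (by omega), map_zero, zero_add, X_mul]⟩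

def pr {R : Type} [Ring R] (L : List (AddSubmonoid R)) : AddSubmonoid R :=
  L.foldr (fun P J => AddSubmonoid.closure {x : R | ∃ a ∈ P, ∃ b ∈ J, x = a * b}) ⊤

theorem pr_le {R : Type} [Ring R] (L : List (AddSubmonoid R))
    (h : ∀ P ∈ L, ∀ x r : R, x ∈ P → r * x ∈ P ∧ x * r ∈ P) : ∀ P ∈ L, pr L ≤ P := by
  induction L with
  | nil => simp
  | cons Q L ih =>
    intro P hP
    refine AddSubmonoid.closure_le.mpr ?_
    rintro _ ⟨a, ha, b, hb, rfl⟩
    rcases List.mem_cons.mp hP with rfl | hP'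
    · exact (h P hP a b ha).2
    · exact (h P hP b a (ih (fun P h' => h P (List.mem_cons_of_mem _ h')) P hP' hb)).1

def Inv (J : AddSubmonoid (CP (sp σ))) : Prop :=
  (∀ z ∈ J, ∀ r, z * r ∈ J) ∧ ((∃ z ∈ J, toF z 0 ≠ 0) → X σ ∈ J) ∧
    ((∀ z ∈ J, toF z 0 = 0) → ∀ z ∈ J, ∀ k, ∃ z' ∈ J, toF z' 1 = k * toF z 1)

theorem inv_pr [NoZeroDivisors D] [Nontrivial D] (hu : ∀ r, r ≠ 0 → IsUnit (σ r))
    (L : List (AddSubmonoid (CP (sp σ))))
    (h : ∀ P ∈ L, (∀ x r, x ∈ P → x * r ∈ P) ∧ X σ ∈ P) : Inv (pr L) := by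
  induction L with
  | nil =>
    refine ⟨fun _ _ _ => trivial, fun _ => trivial, fun h1 => ?_⟩
    have := h1 1 trivial
    rw [one_def, toF_sg, Finsupp.single_eq_same] at this
    exact absurd this one_ne_zero
  | cons P L ih =>
    obtain ⟨i1, i2, i3⟩ := ih fun P h' => h P (List.mem_cons_of_mem _ h')
    obtain ⟨p1, p2⟩ := h P List.mem_cons_self
    have gen : ∀ a ∈ P, ∀ b ∈ pr L, a * b ∈ pr (P :: L) := fun a ha b hb =>
      AddSubmonoid.subset_closure ⟨a, ha, b, hb, rfl⟩
    have j1 : ∀ z ∈ pr (P :: L), ∀ r, z * r ∈ pr (P :: L) := by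
      intro z hz r
      induction hz using AddSubmonoid.closure_induction with
      | mem x hx =>
        obtain ⟨a, ha, b, hb, rfl⟩ := hx
        rw [mul_assoc]; exact gen a ha _ (i1 b hb r)
      | zero => rw [zero_mul]; exact zero_mem _
      | add x y _ _ a1 a2 => rw [add_mul]; exact add_mem a1 a2
    refine ⟨j1, ?_, fun h0 z hz k => ?_⟩
    · rintro ⟨z, hz, hz0⟩
      obtain ⟨a, ha, b, hb, hab⟩ : ∃ a ∈ P, ∃ b ∈ pr L, toF (a * b) 0 ≠ 0 := by
        by_contra hc
        push Not at hc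
        apply hz0
        clear hz0
        induction hz using AddSubmonoid.closure_induction with
        | mem x hx => obtain ⟨a, ha, b, hb, rfl⟩ := hx; exact hc a ha b hb
        | zero => rfl
        | add x y _ _ a1 a2 => rw [toF_add, Finsupp.add_apply, a1, a2, add_zero]
      rw [c0_mul] at hab
      have hX := i2 ⟨b, hb, right_ne_zero_of_mul hab⟩
      obtain ⟨r, hr⟩ := decomp a
      have hc : cst _ (toF a 0) ∈ P := by
        have := add_mem ha (p1 _ (-r) p2)
        rwa [hr, mul_neg, add_neg_cancel_right] at this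
      obtain ⟨v, hv⟩ := hu _ (left_ne_zero_of_mul hab)
      have := j1 _ (gen _ hc _ hX) (cst _ (↑v⁻¹ : D))
      rwa [cst_def, mul_X, ← cst_def, mul_assoc, ← map_mul, ← hv, Units.mul_inv, map_one,
        mul_one] at this
    · induction hz using AddSubmonoid.closure_induction with
      | mem x hx =>
        obtain ⟨a, ha, b, hb, rfl⟩ := hx
        by_cases hJ : ∀ z ∈ pr L, toF z 0 = 0
        · by_cases ha0 : toF a 0 = 0
          · exact ⟨0, zero_mem _, by rw [c1_mul, ha0, hJ b hb]; simp [toF_zero]⟩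
          · obtain ⟨v, hv⟩ := hu _ ha0
            obtain ⟨b', hb', e⟩ := i3 hJ b hb (↑v⁻¹ * k * v)
            refine ⟨a * b', gen a ha b' hb', ?_⟩
            rw [c1_mul, c1_mul, hJ b hb, hJ b' hb', e, ← hv]
            simp [mul_assoc]
        · push Not at hJ
          obtain ⟨c, hc, hc0⟩ := hJ
          have ha0 : toF a 0 = 0 := by
            have := h0 _ (gen a ha c hc)
            rw [c0_mul] at this
            exact (mul_eq_zero.mp this).resolve_right hc0
          refine ⟨X σ * sg _ 0 (k * toF a 1) * b, gen _ (p1 _ _ p2) b hb, ?_⟩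
          rw [X_mul, c1_mul, c1_mul, ha0, toF_sg, Finsupp.single_eq_of_ne (by omega)]
          simp [mul_assoc]
      | zero => exact ⟨0, zero_mem _, by simp [toF_zero]⟩
      | add x y _ _ a1 a2 =>
        obtain ⟨x', b1, b2⟩ := a1
        obtain ⟨y', b3, b4⟩ := a2
        exact ⟨x' + y', add_mem b1 b3, by
          rw [toF_add, toF_add, Finsupp.add_apply, Finsupp.add_apply, b2, b4, mul_add]⟩

theorem counter [NoZeroDivisors D] [Nontrivial D] (hu : ∀ r, r ≠ 0 → IsUnit (σ r))
    {e k : D} (e0 : e ≠ 0) (he : ∀ r, σ r * e = e * σ r) (hk : ∀ r, k * e ≠ e * r) :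
    ∃ I : AddSubmonoid (CP (sp σ)), (∀ x r, x ∈ I → r * x ∈ I ∧ x * r ∈ I) ∧
      ∀ L : List (AddSubmonoid (CP (sp σ))),
        (∀ P ∈ L, (∀ x r, x ∈ P → r * x ∈ P ∧ x * r ∈ P) ∧
          ∀ a b, (∀ r, a * r * b ∈ P) → a ∈ P ∨ b ∈ P) → pr L ≠ I := by
  obtain ⟨v, hv⟩ := hu e e0
  have xe : X σ = cst _ e * (X σ * cst _ (↑v⁻¹ : D)) := by
    rw [← mul_assoc, cst_def, mul_X, ← cst_def, mul_assoc, ← map_mul, ← hv, Units.mul_inv,
      map_one, mul_one]
  have two : ∀ r : CP (sp σ), ∃ r', r * (X σ * cst _ e) = X σ * cst _ e * r' := by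
    intro r
    induction r using ind with
    | h0 => exact ⟨0, by simp⟩
    | ha f g a1 a2 =>
      obtain ⟨f', h1⟩ := a1
      obtain ⟨g', h2⟩ := a2
      exact ⟨f' + g', by rw [add_mul, mul_add, h1, h2]⟩
    | hs i s =>
      rcases i with _ | i
      · exact ⟨cst _ (σ s), by
          rw [← mul_assoc, mul_X, ← cst_def, mul_assoc, ← map_mul, he, map_mul, mul_assoc]⟩
      · refine ⟨X σ * cst _ (↑v⁻¹ : D) * sg _ i (σ s) * cst _ e, ?_⟩
        rw [← mul_assoc, mul_X, ← X_mul]
        conv_lhs => rw [← mul_assoc (X σ), show X σ * X σ = X σ * (cst _ e * (X σ * cst _ (↑v⁻¹ : D))) by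
          rw [← xe]]
        simp only [mul_assoc]
  refine ⟨{ carrier := {z | ∃ r, z = X σ * cst _ e * r}
            zero_mem' := ⟨0, by simp⟩
            add_mem' := by
              rintro _ _ ⟨r, rfl⟩ ⟨r', rfl⟩
              exact ⟨r + r', by rw [mul_add]⟩ }, ?_, fun L hL hI => ?_⟩
  · rintro _ r ⟨t, rfl⟩
    obtain ⟨r', h⟩ := two r
    exact ⟨⟨r' * t, by rw [← mul_assoc, h, mul_assoc]⟩, ⟨t * r, by rw [mul_assoc]⟩⟩
  · have le := pr_le L fun P hP => (hL P hP).1
    have hX : ∀ P ∈ L, X σ ∈ P := by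
      intro P hP
      have h1 : X σ * X σ ∈ P := le P hP (by
        rw [hI]; exact ⟨X σ * cst _ (↑v⁻¹ : D), by rw [mul_assoc, ← xe]⟩)
      refine or_self_iff.mp ((hL P hP).2 _ _ fun r => ?_)
      obtain ⟨r', h⟩ := normal r
      rw [mul_assoc, h, ← mul_assoc]
      exact ((hL P hP).1 _ r' h1).2
    obtain ⟨-, -, i3⟩ := inv_pr hu L fun P hP => ⟨fun x r h => ((hL P hP).1 x r h).2, hX P hP⟩
    rw [hI] at i3
    have e1 : X σ * cst _ e = sg _ 1 e := X_mul 0 e
    obtain ⟨_, ⟨r, rfl⟩, h⟩ := i3 (by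
      rintro _ ⟨r, rfl⟩
      rw [e1, c0_mul, toF_sg, Finsupp.single_eq_of_ne (by omega), zero_mul])
      (X σ * cst _ e) ⟨1, by rw [mul_one]⟩ k
    rw [e1, c1_mul, toF_sg, Finsupp.single_eq_of_ne (by omega), Finsupp.single_eq_same,
      map_zero, zero_mul, zero_add] at h
    exact hk _ h.symm

end

theorem exD {K : Type} [DivisionRing K] [CharZero K] (s α β : K →+* K) (u : K) (u0 : u ≠ 0)
    (h1 : ∀ k, s k * u = u * s (α k)) (h2 : ∀ k, α (s k) = s k) (h3 : ∀ k, β (s k) = s k)
    (h4 : α u = -u) (h5 : β u = u * 2) :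
    ∃ (σ : CP (sp α) →+* CP (sp α)) (e k : CP (sp α)), (∀ r, r ≠ 0 → IsUnit (σ r)) ∧ e ≠ 0 ∧
      (∀ r, σ r * e = e * σ r) ∧ ∀ r, k * e ≠ e * r := by
  have hp : ∀ (b : ℕ) (r : K), s r * u ^ b = u ^ b * s ((α ^ b) r) := by
    intro b
    induction b with
    | zero => simp
    | succ b ih =>
      intro r
      rw [pow_succ', ← mul_assoc, h1, mul_assoc, ih, ← mul_assoc, pow_succ α]; rfl
  let j : CP (sp α) →+* K := lift (fun n => (AddMonoidHom.mulLeft (u ^ n)).comp s.toAddMonoidHom)
    (by simp) (fun a b r t => by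
      change u ^ (a + b) * s (1 * (α ^ b) r * t) = u ^ a * s r * (u ^ b * s t)
      rw [one_mul, map_mul, pow_add, mul_assoc (u ^ a) (s r), ← mul_assoc (s r), hp]
      simp only [mul_assoc])
  have jsg : ∀ n r, j (sg _ n r) = u ^ n * s r := fun n r => lift_sg _ _ _ n r
  let T : CP (sp α) →+ CP (sp α) := liftA _ fun n => AddMonoidHom.mk'
    (fun r => sg (sp α) n (r * 2 ^ n)) fun r r' => by rw [add_mul, sg_add]
  have Tsg : ∀ n r, T (sg _ n r) = sg _ n (r * 2 ^ n) := fun n r => liftA_sg _ n r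
  have T1 : ∀ f i, toF (T f) i = toF f i * 2 ^ i := by
    intro f i
    induction f using ind with
    | h0 => simp [toF_zero]
    | ha f g a1 a2 => simp only [map_add, toF_add, Finsupp.add_apply, a1, a2, add_mul]
    | hs n r =>
      rw [Tsg, toF_sg, toF_sg]
      by_cases h : n = i
      · subst h; simp
      · rw [Finsupp.single_eq_of_ne' h, Finsupp.single_eq_of_ne' h, zero_mul]
  have T2 : ∀ f, j (T f) = β (j f) := by
    intro f
    induction f using ind with
    | h0 => simp
    | ha f g a1 a2 => simp only [map_add, a1, a2]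
    | hs n r =>
      have c : ∀ x : K, Commute x 2 := fun x => (Nat.cast_commute 2 x).symm
      rw [Tsg, jsg, jsg, map_mul, map_mul, map_pow, map_pow, h3, h5, (c u).mul_pow,
        map_ofNat, mul_assoc, ((c (s r)).pow_right n).eq]
  have inj : ∀ m, ∀ f, (∀ i, m ≤ i → toF f i = 0) → j f = 0 → f = 0 := by
    intro m
    induction m with
    | zero => exact fun f h _ => ext' fun i => h i (by omega)
    | succ m ih =>
      intro f h hj
      have co : ∀ i, toF (T f - f * sg _ 0 (2 ^ m)) i = toF f i * (2 ^ i - 2 ^ m) := by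
        intro i
        have := co_mul_sg f i 0 (2 ^ m)
        rw [add_zero] at this
        rw [toF_sub, Finsupp.sub_apply, T1, this, mul_sub]; rfl
      have g0 := ih (T f - f * sg _ 0 (2 ^ m)) (fun i hi => by
        rw [co]
        rcases hi.eq_or_lt with rfl | hi
        · simp
        · rw [h i hi, zero_mul]) (by rw [map_sub, T2, map_mul, hj]; simp)
      have e : f = sg _ m (toF f m) := ext' fun i => by
        rw [toF_sg]
        by_cases hi : i = m
        · rw [hi, Finsupp.single_eq_same]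
        · rw [Finsupp.single_eq_of_ne hi]
          have := co i
          rw [g0] at this
          refine (mul_eq_zero.mp this.symm).resolve_right (sub_ne_zero.mpr fun e => hi ?_)
          exact Nat.pow_right_injective (le_refl 2) (by exact_mod_cast e)
      rw [e, jsg] at hj
      rw [e, (map_eq_zero s).mp ((mul_eq_zero.mp hj).resolve_left (pow_ne_zero _ u0)), sg_zero]
  let ev : CP (sp α) →+ K := liftA _ fun _ => AddMonoidHom.id K
  have evsg : ∀ n r, ev (sg _ n r) = r := fun n r => liftA_sg _ n r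
  have evX : ∀ r, ev (X α * r) = ev r := by
    intro r
    induction r using ind with
    | h0 => simp
    | ha f g a1 a2 => simp only [mul_add, map_add, a1, a2]
    | hs n r => rw [X_mul, evsg, evsg]
  refine ⟨(cst _).comp (s.comp j), X α - 1, cst _ u, fun r hr => ?_, fun h => ?_, fun r => ?_,
    fun r h => ?_⟩
  · refine (IsUnit.mk0 _ fun h => hr (inj ((toF r).support.sup id + 1) r (fun i hi => ?_)
      ((map_eq_zero s).mp h))).map (cst _)
    by_contra hc
    have : i ≤ (toF r).support.sup id := Finset.le_sup (f := id) (Finsupp.mem_support_iff.mpr hc)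
    omega
  · have := congrArg (fun f => toF f 0) h
    simp only [toF_sub, X, one_def, toF_sg, toF_zero] at this
    simp at this
  · change cst _ (s (j r)) * _ = _ * cst _ (s (j r))
    rw [mul_sub, sub_mul, mul_one, one_mul, cst_def, mul_X, h2]
  · have := congrArg ev h
    rw [mul_sub, sub_mul, mul_one, one_mul, map_sub, map_sub, evX, sub_self, cst_def, mul_X, evX,
      evsg, evsg, h4, ← neg_add', neg_eq_zero, ← two_mul] at this
    exact u0 ((mul_eq_zero.mp this).resolve_left two_ne_zero)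

end Pool.Agent.H.MP_503320_al
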