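import Pool.Agent.H.MP_503320_al.A

namespace Pool.Agent.H.MP_503320_al

open Pool.Agent.Lib.helper10.Crossed nonZeroDivisors Filter Topology

theorem exK (A : Type) [Ring A] [Nontrivial A] [NoZeroDivisors A]
    (ore : ∀ r s : A, s ≠ 0 → ∃ r' s' : A, s' ≠ 0 ∧ s' * r = r' * s) :
    ∃ (K : Type) (_ : DivisionRing K) (ι : A →+* K), (∀ a, ι a = 0 → a = 0) ∧
      (∀ k, ∃ a b, b ≠ 0 ∧ k = (ι b)⁻¹ * ι a) ∧
      ∀ f : A →+* A, (∀ x, f x = 0 → x = 0) → ∃ F : K →+* K, ∀ a, F (ι a) = ι (f a) := by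
  obtain ⟨inst⟩ : Nonempty (OreLocalization.OreSet A⁰) :=
    OreLocalization.nonempty_oreSet_iff_of_noZeroDivisors.mpr fun r s => by
      obtain ⟨r', s', h1, h2⟩ := ore r s (nonZeroDivisors.coe_ne_zero s)
      exact ⟨r', ⟨s', mem_nonZeroDivisors_of_ne_zero h1⟩, h2⟩
  let ι : A →+* OreLocalization A⁰ A := OreLocalization.numeratorRingHom
  have inj : ∀ a, ι a = 0 → a = 0 := fun a h =>
    OreLocalization.numeratorHom_inj (S := A⁰) (fun x hx => hx.1) (h.trans (map_zero ι).symm)
  refine ⟨OreLocalization A⁰ A, inferInstance, ι, inj, fun k => ?_, fun f hf => ?_⟩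
  · induction k using OreLocalization.ind with
    | _ r s =>
      refine ⟨r, s, nonZeroDivisors.coe_ne_zero s, ?_⟩
      rw [eq_inv_mul_iff_mul_eq₀ fun h => nonZeroDivisors.coe_ne_zero s (inj _ h)]
      exact OreLocalization.mul_cancel
  · let fS : A⁰ →* (OreLocalization A⁰ A)ˣ :=
      { toFun := fun s => Units.mk0 (ι (f s)) fun h =>
          nonZeroDivisors.coe_ne_zero s (hf _ (inj _ h))
        map_one' := Units.ext (by simp)
        map_mul' := fun s t => Units.ext (by simp) }
    exact ⟨OreLocalization.universalHom (ι.comp f) fS fun _ => rfl, fun a =>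
      OreLocalization.universalHom_commutes (ι.comp f) fS fun _ => rfl⟩

abbrev M := ℕ →₀ ℕ

noncomputable def Bf (a b : M) : ℕ := b.sum fun i n => a (i + 1) * n

theorem Bf_addl (a a' b : M) : Bf (a + a') b = Bf a b + Bf a' b := by
  simp [Bf, add_mul, Finsupp.sum_add]

theorem Bf_addr (a b b' : M) : Bf a (b + b') = Bf a b + Bf a b' :=
  Finsupp.sum_add_index' (by simp) (by simp [mul_add])

noncomputable def dA : Dat M ℚ where
  act _ := RingHom.id ℚ
  w a b := (-1) ^ Bf a b
  act0 _ := rfl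
  w0l a := by simp [Bf]
  w0r a := by simp [Bf]
  comm b c r := mul_comm _ _
  coc a b c := by
    simp only [Bf_addl, Bf_addr, pow_add, RingHom.id_apply]; ring

abbrev AA := CP dA

theorem A_mul (a b : M) (r s : ℚ) :
    sg dA a r * sg dA b s = sg dA (a + b) ((-1) ^ Bf a b * r * s) := sg_mul a b r s

theorem cst_mul (c : ℚ) (f : AA) : toF (cst dA c * f) = c • toF f := by
  induction f using ind with
  | h0 => simp [toF_zero]
  | ha f g a1 a2 => rw [mul_add, toF_add, toF_add, a1, a2, smul_add]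
  | hs a r => rw [cst_def, A_mul, toF_sg, toF_sg]; simp [Bf]

noncomputable def rm (r : AA) : (M →₀ ℚ) →ₗ[ℚ] (M →₀ ℚ) where
  toFun p := toF ((show AA from p) * r)
  map_add' p q := congrArg toF (add_mul (show AA from p) q r)
  map_smul' c p := by
    have : (show AA from c • p) = cst dA c * (show AA from p) := (cst_mul c p).symm
    rw [this, mul_assoc, cst_mul]; rfl

theorem growth (c : M) : ∃ d, (Finset.Iic ((d + 1) • c)).card < 2 * (Finset.Iic (d • c)).card := by
  by_contra hc
  push Not at hc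
  have h1 : ∀ d, 2 ^ d ≤ (Finset.Iic (d • c)).card := by
    intro d
    induction d with
    | zero => exact Finset.card_pos.mpr ⟨_, Finset.mem_Iic.mpr le_rfl⟩
    | succ d ih => have := hc d; rw [pow_succ]; omega
  set C := ∏ i ∈ c.support, (c i + 1)
  have h2 : ∀ d, 1 ≤ d → (Finset.Iic (d • c)).card ≤ d ^ c.support.card * C := by
    intro d hd
    rw [Finsupp.card_Iic, ← Finset.prod_const, ← Finset.prod_mul_distrib]
    refine le_trans (Finset.prod_le_prod_of_subset_of_one_le' Finsupp.support_smul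
      fun i _ _ => by simp) (Finset.prod_le_prod' fun i _ => ?_)
    simp only [Finsupp.smul_apply, smul_eq_mul, Nat.card_Iic]
    nlinarith
  have h3 := (tendsto_pow_const_div_const_pow_of_one_lt c.support.card
    (show (1 : ℝ) < 2 by norm_num)).mul_const (C : ℝ)
  rw [zero_mul] at h3
  obtain ⟨d, d1, d2⟩ := ((h3.eventually (gt_mem_nhds one_pos)).and (eventually_ge_atTop 1)).exists
  rw [div_mul_eq_mul_div, div_lt_one (by positivity)] at d1
  have : d ^ c.support.card * C < 2 ^ d := by exact_mod_cast d1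
  have := (h1 d).trans (h2 d d2)
  omega

theorem fr (S : Finset M) : Module.finrank ℚ (Finsupp.supported ℚ ℚ (S : Set M)) = S.card := by
  rw [(Finsupp.supportedEquivFinsupp (S : Set M)).finrank_eq, Module.finrank_finsupp_self]
  simp

theorem A_noZero : NoZeroDivisors AA :=
  noZero (fun a b => pow_ne_zero _ (by norm_num)) fun _ _ h => h

theorem A_ore (r s : AA) (hs : s ≠ 0) : ∃ r' s' : AA, s' ≠ 0 ∧ s' * r = r' * s := by
  classical
  have := A_noZero
  set c : M := ∑ a ∈ (toF r).support ∪ (toF s).support, a with hc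
  obtain ⟨d, hd⟩ := growth c
  have mem : ∀ (t : AA), (toF t).support ⊆ (toF r).support ∪ (toF s).support →
      ∀ p ∈ Finsupp.supported ℚ ℚ ((Finset.Iic (d • c) : Finset M) : Set M),
        rm t p ∈ Finsupp.supported ℚ ℚ ((Finset.Iic ((d + 1) • c) : Finset M) : Set M) := by
    intro t ht p hp m hm
    obtain ⟨a, b, h1, h2, rfl⟩ := supp_mul (Finsupp.mem_support_iff.mp hm)
    have a1 : a ≤ d • c := Finset.mem_Iic.mp (hp (Finsupp.mem_support_iff.mpr h1))
    have a2 : b ≤ c := Finset.single_le_sum (f := fun a : M => a) (fun _ _ => zero_le)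
      (ht (Finsupp.mem_support_iff.mpr h2))
    rw [Finset.mem_coe, Finset.mem_Iic, add_smul, one_smul]
    exact add_le_add a1 a2
  let Φ := LinearMap.coprod ((rm r).restrict (mem r Finset.subset_union_left))
    (-(rm s).restrict (mem s Finset.subset_union_right))
  have fin : ∀ S : Finset M, Module.Finite ℚ (Finsupp.supported ℚ ℚ (S : Set M)) := fun S =>
    Module.Finite.equiv (Finsupp.supportedEquivFinsupp (S : Set M)).symm
  obtain ⟨⟨p, q⟩, h1, h2⟩ : ∃ x, Φ x = 0 ∧ x ≠ 0 := by
    by_contra hcon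
    push Not at hcon
    have := LinearMap.finrank_le_finrank_of_injective ((injective_iff_map_eq_zero Φ).mpr hcon)
    rw [Module.finrank_prod, fr, fr] at this
    omega
  have h3 : (show AA from p.1) * r = (show AA from q.1) * s :=
    sub_eq_zero.mp (by rw [sub_eq_add_neg]; exact congrArg Subtype.val h1)
  refine ⟨q.1, p.1, fun h => h2 ?_, h3⟩
  have h4 : (show AA from q.1) = 0 := by
    rw [h, zero_mul] at h3
    exact (mul_eq_zero.mp h3.symm).resolve_right hs
  exact Prod.ext (Subtype.ext h) (Subtype.ext h4)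

noncomputable def shm (a : M) : M := Finsupp.mapDomain Nat.succ a

theorem shm_succ (a : M) (i : ℕ) : shm a (i + 1) = a i :=
  Finsupp.mapDomain_apply Nat.succ_injective a i

theorem shm_zero (a : M) : shm a 0 = 0 :=
  Finsupp.mapDomain_of_notMem_range a 0 (by simp)

theorem Bf_shm (a b : M) : Bf (shm a) (shm b) = Bf a b := by
  unfold Bf
  rw [shm, shm, Finsupp.sum_mapDomain_index (by simp) (by simp [mul_add])]
  exact Finsupp.sum_congr fun i _ => congrArg (· * b i) (shm_succ a (i + 1))

noncomputable def sh : AA →+* AA := lift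
  (fun a => AddMonoidHom.mk' (sg dA (shm a)) (sg_add _))
  (by simp [shm, one_def]) fun a b r s => by
    change sg dA (shm (a + b)) _ = sg dA (shm a) r * sg dA (shm b) s
    rw [A_mul, Bf_shm, shm, Finsupp.mapDomain_add]; rfl

theorem sh_sg (a : M) (r : ℚ) : sh (sg dA a r) = sg dA (shm a) r := lift_sg _ _ _ a r

noncomputable def th (l : ℚ) : AA →+* AA := lift
  (fun a => AddMonoidHom.mk' (fun r => sg dA a (l ^ a 0 * r)) fun r s => by rw [mul_add, sg_add])
  (by simp [one_def]) fun a b r s => by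
    change sg dA (a + b) (l ^ (a + b) 0 * ((-1) ^ Bf a b * r * s)) =
      sg dA a (l ^ a 0 * r) * sg dA b (l ^ b 0 * s)
    rw [A_mul, Finsupp.add_apply, pow_add]; congr 1; ring

theorem th_sg (l : ℚ) (a : M) (r : ℚ) : th l (sg dA a r) = sg dA a (l ^ a 0 * r) :=
  lift_sg _ _ _ a r

theorem sh_inj (f : AA) (h : sh f = 0) : f = 0 := by
  have : ∀ f a, toF (sh f) (shm a) = toF f a := by
    intro f a
    induction f using ind with
    | h0 => simp [toF_zero]
    | ha f g a1 a2 => simp only [map_add, toF_add, Finsupp.add_apply, a1, a2]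
    | hs b r =>
      rw [sh_sg, toF_sg, toF_sg]
      exact Finsupp.single_apply_left (Finsupp.mapDomain_injective Nat.succ_injective) b a r
  exact ext' fun a => by rw [← this, h]; rfl

theorem th_inj {l : ℚ} (hl : l ≠ 0) (f : AA) (h : th l f = 0) : f = 0 := by
  have : ∀ f a, toF (th l f) a = l ^ a 0 * toF f a := by
    intro f a
    induction f using ind with
    | h0 => simp [toF_zero]
    | ha f g a1 a2 => simp only [map_add, toF_add, Finsupp.add_apply, a1, a2, mul_add]
    | hs b r =>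
      rw [th_sg, toF_sg, toF_sg]
      by_cases e : b = a
      · subst e; simp
      · rw [Finsupp.single_eq_of_ne' e, Finsupp.single_eq_of_ne' e, mul_zero]
  refine ext' fun a => ?_
  have e := this f a
  rw [h] at e
  exact (mul_eq_zero.mp e.symm).resolve_left (pow_ne_zero _ hl)

theorem th_sh (l : ℚ) (f : AA) : th l (sh f) = sh f := by
  induction f using ind with
  | h0 => simp
  | ha f g a1 a2 => simp only [map_add, a1, a2]
  | hs b r => rw [sh_sg, th_sg, shm_zero, pow_zero, one_mul]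

noncomputable def u0 : AA := sg dA (Finsupp.single 0 1) 1

theorem sh_u0 (f : AA) : sh f * u0 = u0 * sh (th (-1) f) := by
  induction f using ind with
  | h0 => simp
  | ha f g a1 a2 => simp only [map_add, add_mul, mul_add, a1, a2]
  | hs b r =>
    have e1 : Bf (shm b) (Finsupp.single 0 1) = b 0 := by
      rw [Bf, Finsupp.sum_single_index (by simp), shm_succ, mul_one]
    have e2 : Bf (Finsupp.single 0 1) (shm b) = 0 := by simp [Bf]
    rw [th_sg, sh_sg, sh_sg, u0, A_mul, A_mul, e1, e2, add_comm]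
    congr 1; ring

theorem exData : ∃ (K : Type) (_ : DivisionRing K) (_ : CharZero K) (s α β : K →+* K) (u : K),
    u ≠ 0 ∧ (∀ k, s k * u = u * s (α k)) ∧ (∀ k, α (s k) = s k) ∧ (∀ k, β (s k) = s k) ∧
      α u = -u ∧ β u = u * 2 := by
  have := A_noZero
  have : Nontrivial AA := nontriv
  obtain ⟨K, _, ι, h1, h2, h3⟩ := exK AA A_ore
  obtain ⟨s, hs⟩ := h3 sh sh_inj
  obtain ⟨α, hα⟩ := h3 (th (-1)) (th_inj (by norm_num))
  obtain ⟨β, hβ⟩ := h3 (th 2) (th_inj (by norm_num))
  have u1 : ι u0 ≠ 0 := fun h => one_ne_zero (Finsupp.single_eq_zero.mp (h1 _ h))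
  refine ⟨K, inferInstance, ((ι.comp (cst dA)).charZero_iff (RingHom.injective _)).mp
    inferInstance, s, α, β, ι u0, u1, fun k => ?_, fun k => ?_, fun k => ?_, ?_, ?_⟩
  · obtain ⟨a, b, hb, rfl⟩ := h2 k
    have e : ∀ a, s (ι a) * ι u0 = ι u0 * s (α (ι a)) := fun a => by
      rw [hα, hs, hs, ← map_mul, ← map_mul, sh_u0]
    have b1 : ι b ≠ 0 := fun h => hb (h1 _ h)
    have b2 : s (ι b) ≠ 0 := (map_ne_zero s).mpr b1
    have b3 : s (α (ι b)) ≠ 0 := (map_ne_zero s).mpr ((map_ne_zero α).mpr b1)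
    simp only [map_mul, map_inv₀]
    rw [mul_assoc, e, inv_mul_eq_iff_eq_mul₀ b2, ← mul_assoc (s (ι b)), e, mul_assoc,
      mul_inv_cancel_left₀ b3]
  · obtain ⟨a, b, -, rfl⟩ := h2 k
    simp only [map_mul, map_inv₀, hs, hα, th_sh]
  · obtain ⟨a, b, -, rfl⟩ := h2 k
    simp only [map_mul, map_inv₀, hs, hβ, th_sh]
  · rw [hα, ← map_neg, u0, th_sg, ← sg_neg]; simp
  · rw [hβ, mul_two, ← map_add, u0, th_sg, ← sg_add]; norm_num

end Pool.Agent.H.MP_503320_al
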